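import Pool.Agent.P.MP_9321be_ag.Main

open Pool.Agent.P.MP_9321be_ag

/-- The motivic monodromy conjecture holds for `f = ∑ j, w j * g j`, where `g` is any finite
generating family of the path ideal of a finite quiver with coloured vertices. -/
theorem Pool.Agent.Results.MP_9321be_ag.ColouredQuivers.result
    (V : Type) [Quiver.{0} V] [Finite V] [∀ u v : V, Finite (u ⟶ v)] (D : QData V) [Finite D.F]
    (J : Type) [Fintype J] (g : J → MvPolynomial D.Vars ℂ)
    (hg : Ideal.span (Set.range g) = D.ideal) (hf : hyper g ≠ 0) :
    MonodromyConjecture (hyper g) :=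
  D.conjecture g hg hf
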