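import Pool.Agent.P.MP_9321be_ag.DG.Main

open Pool.Agent.P.MP_9321be_ag MvPolynomial

/-- The motivic monodromy conjecture holds for every nonzero polynomial
`g₀(x) + ∑ j, w j * g j (x)`, where `g₀` and the `g j` are arbitrary linear combinations of one
family of nonconstant monomials `x ^ a i` in pairwise disjoint sets of variables. -/
theorem Pool.Agent.Results.MP_9321be_ag.DiagonalSystems.result {σ ι J : Type} [Fintype σ]
    [Fintype ι] [Fintype J] (a : ι → σ →₀ ℕ) (ha : ∀ i, a i ≠ 0)
    (hd : Pairwise fun i k => Disjoint (a i).support (a k).support)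
    (A₀ : ι → ℂ) (A : J → ι → ℂ)
    (hf : rename Sum.inl (∑ i, monomial (a i) (A₀ i)) +
      hyper (fun j => ∑ i, monomial (a i) (A j i)) ≠ 0) :
    MonodromyConjecture (rename Sum.inl (∑ i, monomial (a i) (A₀ i)) +
      hyper fun j => ∑ i, monomial (a i) (A j i)) :=
  DG.conjecture a ha hd A₀ A hf
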