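import Pool.Agent.P.MP_9321be_ag.SN.All

open Pool.Agent.P.MP_9321be_ag

/-- The motivic monodromy conjecture holds, in every dimension, for every nonzero polynomial `f`
vanishing at the origin such that `f + y₁ ^ 2 + ⋯ + y_r ^ 2` becomes, after a biholomorphic change
of coordinates at the origin and multiplication by a holomorphic unit, a polynomial `F` that is
non-degenerate with respect to all compact faces of its Newton polyhedron. -/
theorem Pool.Agent.Results.MP_9321be_ag.StablyNondegenerate.result (n r : ℕ)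
    (f : MvPolynomial (Fin n) ℂ) (hf : f ≠ 0) (h0 : MvPolynomial.coeff 0 f = 0)
    (F : MvPolynomial (Fin n ⊕ Fin r) ℂ) (hF : ND.Nondeg F)
    (Φ : (Fin n ⊕ Fin r → ℂ) → Fin n ⊕ Fin r → ℂ) (hΦ : AnalyticAt ℂ Φ 0) (hΦ0 : Φ 0 = 0)
    (hd : Function.Bijective (fderiv ℂ Φ 0))
    (u : (Fin n ⊕ Fin r → ℂ) → ℂ) (hu : AnalyticAt ℂ u 0) (hu0 : u 0 ≠ 0)
    (h : ∀ᶠ y in nhds 0, MvPolynomial.eval (Φ y) F =
      u y * (MvPolynomial.eval (fun i => y (Sum.inl i)) f + ∑ j, y (Sum.inr j) ^ 2)) :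
    MonodromyConjecture f :=
  SN.conjecture hf h0 hF hΦ hΦ0 hd hu hu0 h
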